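import Pool.Agent.X205.Beurling.Fin

/-!
# Every Lipschitz interpolating family of pairs has a Beurling set

The finite case (`Pool.Agent.X205.Beurling.finite_beurling`) is proved by linear duality and
Seymour's theorem on sums of circuits; the general case follows by compactness.  The open mapping
theorem shows that the interpolation constant is the infimum of a nonempty set.
-/

set_option autoImplicit false

open Filter Topology
open scoped ENNReal

namespace Pool.Agent.Results.MP_f46ce3_an.BeurlingSetsExist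

universe u v

section defs

variable {X : Type u} [MetricSpace X] {I : Type v}

/-- `g` belongs to `Lip₀(X)`, `o` being the base point, and its norm is at most `K`: it vanishes at
`o` and is Lipschitz with constant `K`. -/
def NormLe (o : X) (K : ℝ) (g : X → ℝ) : Prop :=
  g o = 0 ∧ ∀ x y : X, |g x - g y| ≤ K * dist x y

/-- The difference quotient `D_{x,y} g = (g x - g y) / d(x, y)`. -/
noncomputable def diffQuot (g : X → ℝ) (x y : X) : ℝ := (g x - g y) / dist x y

/-- The family `p` of pairs is a Lipschitz interpolating set: the map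
`T g = (D_{x_i,y_i} g)_i` maps `Lip₀(X)` onto `ℓ_∞(I)`. -/
def Interpolating (o : X) (p : I → X × X) : Prop :=
  ∀ α : I → ℝ, (∃ B : ℝ, ∀ i, |α i| ≤ B) →
    ∃ g : X → ℝ, (∃ K : ℝ, NormLe o K g) ∧ ∀ i, diffQuot g (p i).1 (p i).2 = α i

/-- The interpolation constant: the infimum of all `K ≥ 1` such that every `α` in the closed unit
ball of `ℓ_∞(I)` has a preimage under `T` of norm at most `K`. -/
noncomputable def interpConst (o : X) (p : I → X × X) : ℝ :=
  sInf {K : ℝ | 1 ≤ K ∧ ∀ α : I → ℝ, (∀ i, |α i| ≤ 1) →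
    ∃ g : X → ℝ, NormLe o K g ∧ ∀ i, diffQuot g (p i).1 (p i).2 = α i}

/-- `f` is a Beurling set for the family `p` with constant `M`: the functions `f i` belong to
`Lip₀(X)`, `D_{x_j,y_j} f_i` is `1` for `i = j` and `0` for `i ≠ j`, and
`∑_i |D_{x,y} f_i| ≤ M` for all `x ≠ y`. -/
def IsBeurling (o : X) (p : I → X × X) (M : ℝ) (f : I → X → ℝ) : Prop :=
  (∀ i, ∃ K : ℝ, NormLe o K (f i)) ∧
  (∀ i, diffQuot (f i) (p i).1 (p i).2 = 1) ∧
  (∀ i j, i ≠ j → diffQuot (f i) (p j).1 (p j).2 = 0) ∧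
  ∀ x y : X, x ≠ y → ∑' i, ENNReal.ofReal |diffQuot (f i) x y| ≤ ENNReal.ofReal M

end defs

section local_part

variable {X : Type u} [MetricSpace X] {I : Type v}

/-- Admissible constants. -/
def Adm (o : X) (p : I → X × X) : Set ℝ :=
  {K : ℝ | 1 ≤ K ∧ ∀ α : I → ℝ, (∀ i, |α i| ≤ 1) →
    ∃ g : X → ℝ, NormLe o K g ∧ ∀ i, diffQuot g (p i).1 (p i).2 = α i}

theorem local_beurling (o : X) (p : I → X × X) (hp : ∀ i, (p i).1 ≠ (p i).2) {K : ℝ}
    (hK : K ∈ Adm o p) (F : Finset X) (J : Finset I) :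
    ∃ f : I → X → ℝ, (∀ i, f i o = 0) ∧ (∀ i x, |f i x| ≤ K * dist x o) ∧
      (∀ i ∈ J, f i (p i).1 - f i (p i).2 = dist (p i).1 (p i).2) ∧
      (∀ i ∈ J, ∀ j ∈ J, i ≠ j → f i (p j).1 - f i (p j).2 = 0) ∧
      ∀ x ∈ F, ∀ y ∈ F, ∑ i ∈ J, |f i x - f i y| ≤ K * dist x y := by
  classical
  obtain ⟨hK1, hK2⟩ := hK
  have hK0 : 0 ≤ K := by linarith
  set G : Finset X := insert o (F ∪ J.image (fun i => (p i).1) ∪ J.image (fun i => (p i).2)) with hG
  have hoG : o ∈ G := Finset.mem_insert_self _ _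
  have hFG : ∀ x ∈ F, x ∈ G := fun x hx => by simp [hG, hx]
  have h1G : ∀ i ∈ J, (p i).1 ∈ G := fun i hi => by
    rw [hG]
    refine Finset.mem_insert_of_mem (Finset.mem_union_left _ (Finset.mem_union_right _ ?_))
    exact Finset.mem_image_of_mem (fun i => (p i).1) hi
  have h2G : ∀ i ∈ J, (p i).2 ∈ G := fun i hi => by
    rw [hG]
    refine Finset.mem_insert_of_mem (Finset.mem_union_right _ ?_)
    exact Finset.mem_image_of_mem (fun i => (p i).2) hi
  let eG := G.equivFin
  let eJ := J.equivFin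
  let a : Fin J.card → Fin G.card := fun j => eG ⟨(p (eJ.symm j)).1, h1G _ (eJ.symm j).2⟩
  let b : Fin J.card → Fin G.card := fun j => eG ⟨(p (eJ.symm j)).2, h2G _ (eJ.symm j).2⟩
  obtain ⟨f, hf1, hf2⟩ := Pool.Agent.X205.Beurling.finite_beurling a b
    (fun j => dist (p (eJ.symm j)).1 (p (eJ.symm j)).2) (fun j => dist_nonneg)
    (fun x y => K * dist (eG.symm x : X) (eG.symm y : X))
    (fun x y => mul_nonneg hK0 dist_nonneg) (by
      intro ε hε
      obtain ⟨g, hg1, hg2⟩ := hK2 (fun i => if hi : i ∈ J then ε (eJ ⟨i, hi⟩) else 0) (by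
        intro i
        by_cases hi : i ∈ J
        · rw [dif_pos hi]
          rcases hε (eJ ⟨i, hi⟩) with h | h <;> rw [h] <;> simp
        · rw [dif_neg hi]; simp)
      refine ⟨fun x => g (eG.symm x : X), fun x y => hg1.2 _ _, fun j => ?_⟩
      have h1 := hg2 (eJ.symm j : I)
      have hd : dist (p (eJ.symm j)).1 (p (eJ.symm j)).2 ≠ 0 := dist_ne_zero.2 (hp _)
      rw [diffQuot, div_eq_iff hd, dif_pos (eJ.symm j).2] at h1
      simp only [a, b, Equiv.symm_apply_apply]
      rw [h1]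
      simp)
  let fn : I → X → ℝ := fun i x => if hi : i ∈ J then
    (if hx : x ∈ G then f (eJ ⟨i, hi⟩) (eG ⟨x, hx⟩) - f (eJ ⟨i, hi⟩) (eG ⟨o, hoG⟩) else 0) else 0
  have hfn : ∀ i (hi : i ∈ J) x (hx : x ∈ G), fn i x =
      f (eJ ⟨i, hi⟩) (eG ⟨x, hx⟩) - f (eJ ⟨i, hi⟩) (eG ⟨o, hoG⟩) := by
    intro i hi x hx
    simp only [fn, dif_pos hi, dif_pos hx]
  refine ⟨fn, ?_, ?_, ?_, ?_, ?_⟩
  · intro i
    by_cases hi : i ∈ J
    · rw [hfn i hi o hoG, sub_self]
    · simp only [fn, dif_neg hi]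
  · intro i x
    by_cases hi : i ∈ J
    · by_cases hx : x ∈ G
      · rw [hfn i hi x hx]
        have h1 := hf1 (eG ⟨x, hx⟩) (eG ⟨o, hoG⟩)
        simp only [Equiv.symm_apply_apply] at h1
        refine le_trans ?_ h1
        exact Finset.single_le_sum (f := fun j => |f j (eG ⟨x, hx⟩) - f j (eG ⟨o, hoG⟩)|)
          (fun _ _ => abs_nonneg _) (Finset.mem_univ _)
      · simp only [fn, dif_pos hi, dif_neg hx, abs_zero]
        positivity
    · simp only [fn, dif_neg hi, abs_zero]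
      positivity
  · intro i hi
    rw [hfn i hi _ (h1G i hi), hfn i hi _ (h2G i hi)]
    have h1 := hf2 (eJ ⟨i, hi⟩) (eJ ⟨i, hi⟩)
    rw [if_pos rfl] at h1
    simp only [a, b, Equiv.symm_apply_apply] at h1
    linarith
  · intro i hi j hj hij
    rw [hfn i hi _ (h1G j hj), hfn i hi _ (h2G j hj)]
    have h1 := hf2 (eJ ⟨i, hi⟩) (eJ ⟨j, hj⟩)
    rw [if_neg (by
      intro h
      have := eJ.injective h
      exact hij (congrArg Subtype.val this))] at h1
    simp only [a, b, Equiv.symm_apply_apply] at h1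
    linarith
  · intro x hx y hy
    have h1 := hf1 (eG ⟨x, hFG x hx⟩) (eG ⟨y, hFG y hy⟩)
    simp only [Equiv.symm_apply_apply] at h1
    refine le_trans (le_of_eq ?_) h1
    rw [← Finset.sum_coe_sort J, ← Equiv.sum_comp eJ]
    refine Finset.sum_congr rfl fun i _ => ?_
    rw [hfn i i.2 x (hFG x hx), hfn i i.2 y (hFG y hy)]
    congr 1
    simp

theorem adm_nonempty (o : X) (p : I → X × X) (hp : ∀ i, (p i).1 ≠ (p i).2)
    (h : Interpolating o p) : (Adm o p).Nonempty := by
  classical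
  -- the closed subspace of `ℓ_∞(X × X)` of difference quotient functions
  let R : Submodule ℝ (lp (fun _ : X × X => ℝ) ∞) :=
    { carrier := {φ | ∀ x y z : X, dist x y * φ (x, y) + dist y z * φ (y, z) = dist x z * φ (x, z)}
      zero_mem' := by intro x y z; simp
      add_mem' := by
        intro φ ψ h1 h2 x y z
        have e1 := h1 x y z
        have e2 := h2 x y z
        simp only [lp.coeFn_add, Pi.add_apply]
        linarith
      smul_mem' := by
        intro c φ h1 x y z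
        have e1 := h1 x y z
        simp only [lp.coeFn_smul, Pi.smul_apply, smul_eq_mul]
        linear_combination c * e1 }
  have hRc : IsClosed (R : Set (lp (fun _ : X × X => ℝ) ∞)) := by
    have e : (R : Set (lp (fun _ : X × X => ℝ) ∞)) = ⋂ x, ⋂ y, ⋂ z,
        {φ | dist x y * φ (x, y) + dist y z * φ (y, z) = dist x z * φ (x, z)} := by
      ext φ
      simp [R]
    rw [e]
    have hev : ∀ q : X × X, Continuous (fun φ : lp (fun _ : X × X => ℝ) ∞ => φ q) := fun q =>
      (lp.evalCLM ℝ (fun _ : X × X => ℝ) ∞ q).continuous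
    refine isClosed_iInter fun x => isClosed_iInter fun y => isClosed_iInter fun z =>
      isClosed_eq ?_ ?_
    · exact ((hev _).const_mul _).add ((hev _).const_mul _)
    · exact (hev _).const_mul _
  have : CompleteSpace R := hRc.completeSpace_coe
  let T : lp (fun _ : X × X => ℝ) ∞ →L[ℝ] lp (fun _ : I => ℝ) ∞ := LinearMap.mkContinuous
    { toFun := fun φ => ⟨fun i => φ (p i), memℓp_infty ⟨‖φ‖, by
        rintro _ ⟨i, rfl⟩
        exact lp.norm_apply_le_norm (by norm_num) φ (p i)⟩⟩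
      map_add' := fun φ ψ => rfl
      map_smul' := fun c φ => rfl } 1 (fun φ => by
        rw [one_mul]
        refine lp.norm_le_of_forall_le (norm_nonneg _) fun i => ?_
        exact lp.norm_apply_le_norm (by norm_num) φ (p i))
  have hTapp : ∀ φ i, T φ i = φ (p i) := fun φ i => rfl
  have hsurj : Function.Surjective (T.comp R.subtypeL) := by
    intro α
    obtain ⟨g, ⟨K, hg0, hgK⟩, hg⟩ := h (fun i => α i) ⟨‖α‖, fun i => by
      have := lp.norm_apply_le_norm (p := ∞) (by norm_num) α i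
      simpa using this⟩
    have hmem : Memℓp (fun q : X × X => diffQuot g q.1 q.2) ∞ := by
      refine memℓp_infty ⟨|K|, ?_⟩
      rintro _ ⟨⟨x, y⟩, rfl⟩
      show |(g x - g y) / dist x y| ≤ |K|
      rw [abs_div, abs_of_nonneg (dist_nonneg (x := x) (y := y))]
      refine div_le_of_le_mul₀ dist_nonneg (abs_nonneg _) ((hgK x y).trans ?_)
      exact mul_le_mul_of_nonneg_right (le_abs_self _) dist_nonneg
    have hD : ∀ x y, dist x y * diffQuot g x y = g x - g y := by
      intro x y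
      by_cases hxy : x = y
      · subst hxy; simp
      · rw [diffQuot, mul_div_cancel₀ _ (dist_ne_zero.2 hxy)]
    refine ⟨⟨⟨_, hmem⟩, ?_⟩, ?_⟩
    · intro x y z
      show dist x y * diffQuot g x y + dist y z * diffQuot g y z = dist x z * diffQuot g x z
      rw [hD, hD, hD]; ring
    · ext i
      exact hg i
  obtain ⟨C, hC0, hC⟩ := (T.comp R.subtypeL).exists_preimage_norm_le hsurj
  refine ⟨max 1 C, le_max_left _ _, fun α hα => ?_⟩
  have hαm : Memℓp α ∞ := memℓp_infty ⟨1, by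
    rintro _ ⟨i, rfl⟩
    exact hα i⟩
  obtain ⟨⟨φ, hφR⟩, hφ1, hφ2⟩ := hC ⟨α, hαm⟩
  have hφn : ‖φ‖ ≤ C := by
    have h1 : ‖(⟨α, hαm⟩ : lp (fun _ : I => ℝ) ∞)‖ ≤ 1 :=
      lp.norm_le_of_forall_le zero_le_one fun i => hα i
    calc ‖φ‖ ≤ C * ‖(⟨α, hαm⟩ : lp (fun _ : I => ℝ) ∞)‖ := hφ2
      _ ≤ C * 1 := by gcongr
      _ = C := mul_one C
  have hgd : ∀ x y : X, dist x o * φ (x, o) - dist y o * φ (y, o) = dist x y * φ (x, y) := by
    intro x y
    have := hφR x y o
    linarith
  refine ⟨fun x => dist x o * φ (x, o), ⟨by simp, fun x y => ?_⟩, fun i => ?_⟩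
  · rw [hgd, abs_mul, abs_of_nonneg dist_nonneg, mul_comm]
    refine mul_le_mul_of_nonneg_right ?_ dist_nonneg
    have h1 := lp.norm_apply_le_norm (p := ∞) (by norm_num) φ (x, y)
    rw [Real.norm_eq_abs] at h1
    exact (h1.trans hφn).trans (le_max_right _ _)
  · rw [diffQuot]
    simp only
    rw [hgd]
    have h1 : T φ i = α i := by
      have := congrArg (fun ψ : lp (fun _ : I => ℝ) ∞ => ψ i) hφ1
      exact this
    rw [hTapp] at h1
    rw [mul_div_cancel_left₀ _ (dist_ne_zero.2 (hp i))]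
    exact h1

theorem exists_beurling (o : X) (p : I → X × X) (hp : ∀ i, (p i).1 ≠ (p i).2)
    (hne : (Adm o p).Nonempty) :
    ∃ f : I → X → ℝ, IsBeurling o p (sInf (Adm o p)) f := by
  classical
  obtain ⟨K₀, hK₀⟩ := hne
  have hbdd : BddBelow (Adm o p) := ⟨1, fun K hK => hK.1⟩
  have hne' : (Adm o p).Nonempty := ⟨K₀, hK₀⟩
  -- the directed set of finite data
  let A := Finset X × Finset I × (Adm o p)ᵒᵈ
  have : Nonempty (Adm o p) := ⟨⟨K₀, hK₀⟩⟩
  have : Nonempty A := ⟨(∅, ∅, OrderDual.toDual ⟨K₀, hK₀⟩)⟩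
  have hloc : ∀ a : A, ∃ f : I → X → ℝ, (∀ i, f i o = 0) ∧
      (∀ i x, |f i x| ≤ ((OrderDual.ofDual a.2.2 : Adm o p) : ℝ) * dist x o) ∧
      (∀ i ∈ a.2.1, f i (p i).1 - f i (p i).2 = dist (p i).1 (p i).2) ∧
      (∀ i ∈ a.2.1, ∀ j ∈ a.2.1, i ≠ j → f i (p j).1 - f i (p j).2 = 0) ∧
      ∀ x ∈ a.1, ∀ y ∈ a.1, ∑ i ∈ a.2.1, |f i x - f i y| ≤
        ((OrderDual.ofDual a.2.2 : Adm o p) : ℝ) * dist x y := fun a =>
    local_beurling o p hp (OrderDual.ofDual a.2.2).2 a.1 a.2.1
  choose f hf0 hfb hf1 hf2 hf3 using hloc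
  let 𝒰 : Ultrafilter A := Ultrafilter.of atTop
  have h𝒰 : (𝒰 : Filter A) ≤ atTop := Ultrafilter.of_le atTop
  have hev : ∀ a₀ : A, ∀ᶠ a in (𝒰 : Filter A), a₀ ≤ a := fun a₀ =>
    h𝒰 (eventually_ge_atTop a₀)
  have hlim : ∀ i x, ∃ l : ℝ, Tendsto (fun a => f a i x) 𝒰 (𝓝 l) := by
    intro i x
    have h1 : ∀ᶠ a in (𝒰 : Filter A), f a i x ∈ Set.Icc (-(K₀ * dist x o)) (K₀ * dist x o) := by
      filter_upwards [hev (∅, ∅, OrderDual.toDual ⟨K₀, hK₀⟩)] with a ha
      have h2 : ((OrderDual.ofDual a.2.2 : Adm o p) : ℝ) ≤ K₀ := ha.2.2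
      rw [Set.mem_Icc, ← abs_le]
      exact (hfb a i x).trans (mul_le_mul_of_nonneg_right h2 dist_nonneg)
    obtain ⟨l, -, hl⟩ := isCompact_Icc.ultrafilter_le_nhds (𝒰.map fun a => f a i x)
      (le_principal_iff.2 h1)
    exact ⟨l, hl⟩
  choose l hl using hlim
  have hsum : ∀ (s : Finset I) (x y : X), ∑ i ∈ s, |l i x - l i y| ≤ sInf (Adm o p) * dist x y := by
    intro s x y
    have h1 : ∀ K : Adm o p, ∑ i ∈ s, |l i x - l i y| ≤ K * dist x y := by
      intro K
      have h2 : Tendsto (fun a => ∑ i ∈ s, |f a i x - f a i y|) 𝒰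
          (𝓝 (∑ i ∈ s, |l i x - l i y|)) :=
        tendsto_finsetSum _ fun i _ => ((hl i x).sub (hl i y)).abs
      refine le_of_tendsto h2 ?_
      filter_upwards [hev ({x, y}, s, OrderDual.toDual K)] with a ha
      have ha1 : ({x, y} : Finset X) ⊆ a.1 := ha.1
      have ha2 : s ⊆ a.2.1 := ha.2.1
      have ha3 : ((OrderDual.ofDual a.2.2 : Adm o p) : ℝ) ≤ K := ha.2.2
      calc ∑ i ∈ s, |f a i x - f a i y| ≤ ∑ i ∈ a.2.1, |f a i x - f a i y| :=
            Finset.sum_le_sum_of_subset_of_nonneg ha2 fun _ _ _ => abs_nonneg _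
        _ ≤ ((OrderDual.ofDual a.2.2 : Adm o p) : ℝ) * dist x y :=
            hf3 a x (ha1 (by simp)) y (ha1 (by simp))
        _ ≤ K * dist x y := mul_le_mul_of_nonneg_right ha3 dist_nonneg
    rcases eq_or_lt_of_le (dist_nonneg (x := x) (y := y)) with hd | hd
    · have := h1 ⟨K₀, hK₀⟩
      rw [← hd, mul_zero] at this ⊢
      exact this
    · rw [← div_le_iff₀ hd]
      refine le_csInf hne' fun K hK => ?_
      rw [div_le_iff₀ hd]
      exact h1 ⟨K, hK⟩
  refine ⟨l, ?_, ?_, ?_, ?_⟩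
  · intro i
    refine ⟨sInf (Adm o p), ?_, fun x y => ?_⟩
    · refine tendsto_nhds_unique (hl i o) ?_
      simp only [hf0]
      exact tendsto_const_nhds
    · simpa using hsum {i} x y
  · intro i
    have h1 : l i (p i).1 - l i (p i).2 = dist (p i).1 (p i).2 := by
      refine tendsto_nhds_unique ((hl i _).sub (hl i _)) ?_
      refine tendsto_const_nhds.congr' ?_
      filter_upwards [hev (∅, {i}, OrderDual.toDual ⟨K₀, hK₀⟩)] with a ha
      have ha2 : ({i} : Finset I) ⊆ a.2.1 := ha.2.1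
      exact (hf1 a i (ha2 (by simp))).symm
    rw [diffQuot, h1, div_self (dist_ne_zero.2 (hp i))]
  · intro i j hij
    have h1 : l i (p j).1 - l i (p j).2 = 0 := by
      refine tendsto_nhds_unique ((hl i _).sub (hl i _)) ?_
      refine tendsto_const_nhds.congr' ?_
      filter_upwards [hev (∅, {i, j}, OrderDual.toDual ⟨K₀, hK₀⟩)] with a ha
      have ha2 : ({i, j} : Finset I) ⊆ a.2.1 := ha.2.1
      exact (hf2 a i (ha2 (by simp)) j (ha2 (by simp)) hij).symm
    rw [diffQuot, h1, zero_div]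
  · intro x y hxy
    have hd : 0 < dist x y := dist_pos.2 hxy
    refine ENNReal.summable.tsum_le_of_sum_le fun s => ?_
    rw [← ENNReal.ofReal_sum_of_nonneg fun i _ => abs_nonneg _]
    refine ENNReal.ofReal_le_ofReal ?_
    have h1 : ∑ i ∈ s, |diffQuot (l i) x y| = (∑ i ∈ s, |l i x - l i y|) / dist x y := by
      rw [Finset.sum_div]
      refine Finset.sum_congr rfl fun i _ => ?_
      rw [diffQuot, abs_div, abs_of_pos hd]
    rw [h1, div_le_iff₀ hd]
    exact hsum s x y

end local_part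

/-- **Every Lipschitz interpolating family of pairs has a Beurling set.**  For every metric space
`X` with base point `o`, every nonempty index set `I` and every family `p` of pairs of distinct
points of `X` which is a Lipschitz interpolating set, there is a Beurling set for `p`, with constant
the interpolation constant of `p`. -/
theorem result (X : Type u) [MetricSpace X] (o : X) (I : Type v) [Nonempty I] (p : I → X × X)
    (hp : ∀ i, (p i).1 ≠ (p i).2) (h : Interpolating o p) :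
    ∃ f : I → X → ℝ, IsBeurling o p (interpConst o p) f :=
  exists_beurling o p hp (adm_nonempty o p hp h)

end Pool.Agent.Results.MP_f46ce3_an.BeurlingSetsExist
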